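import Pool.Agent.Lib.MP_349919_co.Final

/-! # Convex equilateral `n`-gons in `Λ(m)` for all large `n`

For every `m ≡ 3 (mod 4)` and every `n ≥ 5 m` the rectangular lattice `Λ(m)` contains a convex
equilateral `n`-gon.  The proof starts from the trivial relation of length `m` between three
norm-one elements of `ℚ(√-m)` and replaces every element by five new ones, using the identity
`x(t) + y(t) + z(t) - t + t^2 = 1` for explicit rational functions `x, y, z` which take norm-one
values at norm-one `t`. -/

set_option autoImplicit false

namespace Pool.Agent.Results.MP_349919_co.AllLargeN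

open Pool.Agent.Lib.MP_349919_co

/-- For every natural number `m ≡ 3 (mod 4)` (square-free or not) and every `n ≥ 5 m`, the lattice
`Λ(m)` contains a convex equilateral `n`-gon. -/
theorem result (m : ℕ) (hm : m % 4 = 3) (n : ℕ) (hn : 5 * m ≤ n) :
    ContainsConvexEquilateral (Lam m) n := by
  obtain ⟨T, h1, h2, h3⟩ := exists_zero_sum hm n hn
  exact polygon_of_set (by omega) T h1 h2 h3

end Pool.Agent.Results.MP_349919_co.AllLargeN
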